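import Pool.Agent.K3h5.IB.Stm

/-!
# FIN: if the block after the first cut time is visited finitely often, then the initial part is
visited finitely often
-/

set_option autoImplicit false

open MeasureTheory Filter Topology

namespace Pool.Agent.K3h86.IB

open Pool.Agent.K3h5.IB

variable {d : ℕ}

theorem visits_mono (y : ℕ → V d) (B : Set (V d)) {T T' : ℕ} (h : T ≤ T') :
    visits y B T ≤ visits y B T' := by
  classical
  unfold visits
  apply Finset.card_le_card
  intro n hn
  simp only [Finset.mem_filter, Finset.mem_range] at hn ⊢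
  exact ⟨by omega, hn.2⟩

theorem visits_le {y : ℕ → V d} {B : Set (V d)} {T N : ℕ} (h : ∀ n, y n ∈ B → n < N) :
    visits y B T ≤ N := by
  classical
  unfold visits
  conv_rhs => rw [← Finset.card_range N]
  apply Finset.card_le_card
  intro n hn
  rw [Finset.mem_filter] at hn
  exact Finset.mem_range.2 (h n hn.2)

/-- a vertex of `B` which is visited infinitely often makes the numbers of visits unbounded -/
theorem not_io_of_bounded {y : ℕ → V d} {B : Set (V d)} {C : ℕ} (h : ∀ T, visits y B T ≤ C)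
    {v : V d} (hv : v ∈ B) : ¬ IO y v := by
  classical
  intro hio
  have hinf : {n | y n = v}.Infinite := by
    rw [← Nat.frequently_atTop_iff_infinite, frequently_atTop]
    intro N
    obtain ⟨n, h1, h2⟩ := hio N
    exact ⟨n, h1, h2⟩
  obtain ⟨t, ht, hc⟩ := hinf.exists_subset_card_eq (C + 1)
  have h1 := h (t.sup id + 1)
  have h2 : t.card ≤ visits y B (t.sup id + 1) := by
    unfold visits
    apply Finset.card_le_card
    intro n hn
    simp only [Finset.mem_filter, Finset.mem_range]
    refine ⟨Nat.lt_succ_of_le (Finset.le_sup (f := id) hn), ?_⟩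
    have h3 : y n = v := ht (Finset.mem_coe.2 hn)
    rw [h3]
    exact hv
  omega

theorem t_FIN : S_ROUTE → S_FAIR → S_CUTG → S_NICE → S_CROSS → S_IND → S_CONSY → S_HIT →
    S_FIN := by
  intro _ hFAIR hCUTG hNICE hCROSS hIND hCONSY hHIT d δ x hx C hC
  obtain ⟨-, -, -, hmono, hcut, -, hshift⟩ := hCUTG d δ x hx
  obtain ⟨hhit, -⟩ := hHIT d δ x hx
  obtain ⟨-, hnice⟩ := hIND d δ x hx
  obtain ⟨hfair, -⟩ := hNICE d δ x hx _ hnice
  obtain ⟨h0, hdr, -⟩ := hCROSS d δ x hx _ hnice 0 (YY x) rfl
  have h01 : ct δ x 0 < ct δ x 1 := hmono Nat.zero_lt_one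
  -- the number of visits to the first block
  have hblock : ∀ K, 1 ≤ K →
      visits (YY x) (block x (ct δ x 0) (ct δ x 1)) (hit δ x K) ≤ C := by
    intro K hK
    have h1 := hCONSY d δ x hx (ct δ x 0) (hcut 0) (ct δ x K) (hmono (by omega)) (hcut K) 0
      (ct δ x 1 - ct δ x 0)
    have e1 : ct δ x 0 + (ct δ x 1 - ct δ x 0) = ct δ x 1 := by omega
    have e2 : ct δ x 1 - ct δ x 0 = ct δ (sh (ct δ x 0) x) 1 := by
      have := hshift 0 1
      rw [zero_add] at this
      omega
    have e3 : ct δ x K - ct δ x 0 = ct δ (sh (ct δ x 0) x) K := by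
      have := hshift 0 K
      rw [zero_add] at this
      omega
    rw [e1, add_zero, e2, e3] at h1
    have h2 : visits (YY x) (block x (ct δ x 0) (ct δ x 1)) (hit δ x K) =
        LK δ (sh (ct δ x 0) x) K := h1
    rw [h2]
    exact hC K
  have hall : ∀ T, visits (YY x) (block x (ct δ x 0) (ct δ x 1)) T ≤ C := by
    intro T
    have h1 : T + 1 ≤ hit δ x (T + 1) := hhit.id_le (T + 1)
    exact (visits_mono _ _ (by omega : T ≤ hit δ x (T + 1))).trans (hblock (T + 1) (by omega))
  have hmem : path0 x (ct δ x 1) ∈ block x (ct δ x 0) (ct δ x 1) := ⟨ct δ x 1, h01, le_rfl, rfl⟩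
  have hno1 : ¬ IO (YY x) (path0 x (ct δ x 1)) := not_io_of_bounded hall hmem
  have hno : ∀ v, ¬ IO (YY x) v := by
    intro v hv
    exact hno1 ((hFAIR d _ _ (hfair 0) (YY x) h0 hdr).2.1 v _ hv (hnice.conn _ (hcut 1)))
  -- the last visits
  have hlast : ∀ v : V d, ∃ N, ∀ n ≥ N, YY x n ≠ v := by
    intro v
    have h1 := hno v
    unfold Pool.Agent.K3h5.IB.IO at h1
    push Not at h1
    exact h1
  choose L hL using hlast
  refine ⟨(Finset.range (ct δ x 0 + 1)).sup fun k => L (path0 x k), fun T => ?_⟩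
  refine visits_le fun n hn => ?_
  obtain ⟨k, hk, hkn⟩ := hn
  by_contra hcon
  push Not at hcon
  have h1 : L (path0 x k) ≤ (Finset.range (ct δ x 0 + 1)).sup fun k => L (path0 x k) :=
    Finset.le_sup (f := fun k => L (path0 x k)) (Finset.mem_range.2 (by omega))
  exact hL (path0 x k) n (h1.trans hcon) hkn.symm

end Pool.Agent.K3h86.IB
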